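import Pool.Agent.Helper58_MOO.Stmts

/-!
Module ACB: basic properties of acceptance.
-/

open Cardinal
open Pool.Agent.Helper69_LOTS

namespace Pool.Agent.MOO.H39

open Node

variable {T K : Set Node} {A : Om → Set Node} {C : Set Om}

/-- The flip taking a node of `T` to another node of the same level. -/
theorem exists_flip (hT : Coh T) {s t : Node} (hs : s ∈ T) (ht : t ∈ T) (h : s.ht = t.ht) :
    ∃ g : Finset Om, (∀ ξ ∈ g, ξ < t.ht) ∧ s = flip g t := by
  have hfin := hT.fin s hs t ht h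
  refine ⟨hfin.toFinset, fun ξ hξ => ?_, ?_⟩
  · rw [Set.Finite.mem_toFinset] at hξ
    by_contra hcon
    have h1 := not_lt.1 hcon
    exact hξ (by rw [s.supp ξ (h ▸ h1), t.supp ξ h1])
  · refine Node.ext h (funext fun ξ => ?_)
    by_cases h1 : ξ < t.ht
    · rw [flip_val h1]
      by_cases h2 : s.val ξ = t.val ξ
      · have : ξ ∉ hfin.toFinset := by
          rw [Set.Finite.mem_toFinset]
          exact fun h3 => h3 h2
        rw [decide_eq_false this, h2]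
        simp
      · have : ξ ∈ hfin.toFinset := by
          rw [Set.Finite.mem_toFinset]
          exact h2
        rw [decide_eq_true this]
        cases h3 : s.val ξ <;> cases h4 : t.val ξ <;> simp_all
    · rw [s.supp ξ (h ▸ not_lt.1 h1), (flip hfin.toFinset t).supp ξ (not_lt.1 h1)]

/-- Flips below the height of a node are determined by their action. -/
theorem flip_det {g h : Finset Om} {t : Node} (hg : ∀ ξ ∈ g, ξ < t.ht) (hh : ∀ ξ ∈ h, ξ < t.ht)
    (heq : flip g t = flip h t) : g = h := by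
  ext ξ
  by_cases h1 : ξ < t.ht
  · have h2 : (flip g t).val ξ = (flip h t).val ξ := by rw [heq]
    rw [flip_val h1, flip_val h1] at h2
    cases h3 : t.val ξ <;> by_cases h4 : ξ ∈ g <;> by_cases h5 : ξ ∈ h <;> simp_all
  · exact ⟨fun h2 => absurd (hg ξ h2) h1, fun h2 => absurd (hh ξ h2) h1⟩

theorem mts_flip {B : Set Node} {g : Finset Om} {w : Node} (hw : w ∈ mts (flip g '' B)) :
    ∃ v ∈ mts B, w = flip g v := by
  obtain ⟨_, ⟨s, hs, rfl⟩, _, ⟨t, ht, rfl⟩, h⟩ := hw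
  refine ⟨flip g w, ⟨s, hs, t, ht, ?_⟩, (flip_flip_self g w).symm⟩
  have := h.flip g
  rwa [flip_flip_self, flip_flip_self] at this

theorem sub_flip (hT : Coh T) {B : Set Node} (hB : Sub T B) (g : Finset Om) :
    Sub T (flip g '' B) := by
  refine ⟨?_, ?_, ?_⟩
  · rintro _ ⟨s, hs, rfl⟩
    exact hT.flip s (hB.1 hs) g
  · rintro _ ⟨s, hs, rfl⟩ ξ
    exact ⟨s.res ξ, hB.2.1 s hs ξ, flip_res g s ξ⟩
  · intro δ
    obtain ⟨s, hs, hδ⟩ := hB.2.2 δ
    exact ⟨flip g s, ⟨s, hs, rfl⟩, hδ⟩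

/-- A subtree without meets gives a branch. -/
theorem not_sub_chain (hT : Coh T) {D : Set Node} (hD : Sub T D) (h : ∀ w, w ∉ mts D) : False := by
  have huniq : ∀ s ∈ D, ∀ t ∈ D, s.ht ≤ t.ht → s ≤ t := by
    intro s hs t ht hst
    by_contra hcon
    have h1 : t ≠ s := fun h2 => hcon (h2 ▸ le_rfl)
    have h2 : Inc s t := by
      refine ⟨hcon, fun h3 => ?_⟩
      exact h1 (eq_of_le_of_ht_le h3 hst)
    obtain ⟨w, hw⟩ := h2.exists_mt
    exact h w ⟨s, hs, t, ht, hw⟩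
  choose s hs hsht using hD.2.2
  choose σ hσ using Om_exists_gt
  refine hT.nobr ⟨fun ξ => (s (σ ξ)).val ξ, fun δ => ?_⟩
  have : ofBr (fun ξ => (s (σ ξ)).val ξ) δ = s δ := by
    refine Node.ext (hsht δ).symm (funext fun ξ => ?_)
    change (if ξ < δ then (s (σ ξ)).val ξ else false) = (s δ).val ξ
    by_cases h1 : ξ < δ
    · rw [if_pos h1]
      rcases le_total (σ ξ) δ with h2 | h2
      · have h3 := huniq (s (σ ξ)) (hs _) (s δ) (hs _) (by rw [hsht, hsht]; exact h2)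
        exact h3.2 ξ (by rw [hsht]; exact hσ ξ)
      · have h3 := huniq (s δ) (hs _) (s (σ ξ)) (hs _) (by rw [hsht, hsht]; exact h2)
        exact (h3.2 ξ (by rw [hsht]; exact h1)).symm
    · rw [if_neg h1, (s δ).supp ξ (by rw [hsht]; exact not_lt.1 h1)]
  rw [this]
  exact hD.1 (hs δ)

theorem acc_base (hT : Coh T) (hL : ListOK T K A C) {δ : Om} (hδ : δ ∈ C)
    {f : Finset (Finset Om)} (hf : Below f δ) {t : Node} (ht : t ∈ T) (htδ : t.ht = δ)
    (hacc : Acc T K A δ (orb f t)) :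
    ∃ η, η < δ ∧ t ∈ A η ∧ NoNull T (Kf K f) (A η) := by
  obtain ⟨t', ht', ht'δ, f', hf', heq, η', hη', ht'A, hnn⟩ := hacc
  obtain ⟨g, hg, rfl⟩ := exists_flip hT ht' ht (ht'δ.trans htδ.symm)
  rw [htδ] at hg
  obtain ⟨η, hη, hA⟩ := hL.tran δ hδ η' hη' g hg
  refine ⟨η, hη, (hA t).2 ht'A, ?_⟩
  intro B hB hsub
  obtain ⟨w', hw', hK⟩ := hnn (flip g '' B) (by
    rintro _ ⟨s, hs, rfl⟩
    exact (hA s).1 (hB hs)) (sub_flip hT hsub g)
  obtain ⟨w, hw, rfl⟩ := mts_flip hw'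
  refine ⟨w, hw, fun h hh => ?_⟩
  have h1 : flip h t ∈ orb f' (flip g t) := by
    rw [← heq]
    exact ⟨h, hh, rfl⟩
  obtain ⟨h', hh', h2⟩ := h1
  rw [Node.flip_flip] at h2
  have h3 : h = symmDiff h' g := by
    refine flip_det (fun ξ hξ => ?_) (fun ξ hξ => ?_) h2
    · rw [htδ]
      exact hf h hh ξ hξ
    · rw [htδ]
      rcases Finset.mem_symmDiff.1 hξ with ⟨h4, -⟩ | ⟨h4, -⟩
      · exact hf' h' hh' ξ h4
      · exact hg ξ h4
  rw [h3, ← Node.flip_flip]
  exact hK h' hh'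

/-- ACB. -/
theorem acb : AcbStmt := by
  intro T K A C hT hL
  have hlev : ∀ δ, ∃ t ∈ T, t.ht = δ := by
    intro δ
    obtain ⟨s, hs⟩ := hT.ne
    rcases le_total s.ht δ with h | h
    · obtain ⟨t, ht, -, h2⟩ := hT.ext s hs δ h
      exact ⟨t, ht, h2⟩
    · exact ⟨s.res δ, hT.down s hs δ, res_ht_of_le h⟩
  have hexcl : ∀ δ ∈ C, ∀ f, Below f δ → ∀ t ∈ T, t.ht = δ →
    (∃ η, η < δ ∧ t ∈ A η ∧ DNull T (Kf K f) (A η)) → ¬ Acc T K A δ (orb f t) := by
    rintro δ hδ f hf t ht htδ ⟨η, hη, htA, hdn⟩ hacc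
    obtain ⟨η2, hη2, htA2, hnn⟩ := acc_base hT hL hδ hf ht htδ hacc
    classical
    have hb := hL.bdd δ hδ {η, η2} (by
      intro ζ hζ
      rcases Finset.mem_insert.1 hζ with rfl | hζ
      · exact hη
      · rw [Finset.mem_singleton.1 hζ]
        exact hη2) ⟨t, ht, htδ, by
      intro ζ hζ
      rcases Finset.mem_insert.1 hζ with rfl | hζ
      · exact htA
      · rw [Finset.mem_singleton.1 hζ]
        exact htA2⟩
    have hsub : Sub T (A η ∩ A η2) := by
      refine ⟨fun s hs => (hL.tree η).1 hs.1, fun s hs ξ =>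
        ⟨(hL.tree η).2 s hs.1 ξ, (hL.tree η2).2 s hs.2 ξ⟩, fun ε => ?_⟩
      obtain ⟨s, hs, hε, h1⟩ := hb ε
      exact ⟨s, ⟨h1 η (by simp), h1 η2 (by simp)⟩, hε⟩
    obtain ⟨D, hD, hDs, hDn⟩ := hdn _ Set.inter_subset_left hsub
    obtain ⟨w, hw, hwK⟩ := hnn D (hD.trans Set.inter_subset_right) hDs
    exact hDn w hw hwK
  refine ⟨fun δ hδ f hf t ht htδ hacc => acc_base hT hL hδ hf ht htδ hacc, ?_, hexcl, ?_, ?_, ?_⟩
  · intro δ hδ f hf t ht htδ hacc
    obtain ⟨η, hη, htA, h | h⟩ := hL.dich δ hδ f hf t ht htδ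
    · exact absurd ⟨t, ht, htδ, f, hf, rfl, η, hη, htA, h⟩ hacc
    · exact ⟨η, hη, htA, h⟩
  · rintro δ hδ E E' ⟨t, ht, htδ, f, hf, rfl, η, hη, htA, hnn⟩ hE
    classical
    refine ⟨t, ht, htδ, f.filter (fun g => flip g t ∈ E'), fun g hg => hf g
      (Finset.mem_filter.1 hg).1, ?_, η, hη, htA, fun B hB hsub => ?_⟩
    · ext s
      constructor
      · intro hs
        obtain ⟨g, hg, rfl⟩ := hE hs
        exact ⟨g, Finset.mem_filter.2 ⟨hg, hs⟩, rfl⟩
      · rintro ⟨g, hg, rfl⟩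
        exact (Finset.mem_filter.1 hg).2
    · obtain ⟨w, hw, hK⟩ := hnn B hB hsub
      exact ⟨w, hw, fun g hg => hK g (Finset.mem_filter.1 hg).1⟩
  · intro δ hδ
    obtain ⟨t, ht, htδ⟩ := hlev δ
    have hbel : Below (∅ : Finset (Finset Om)) δ := fun g hg => absurd hg (Finset.notMem_empty g)
    have horb : orb (∅ : Finset (Finset Om)) t = ∅ := by
      ext s
      constructor
      · rintro ⟨g, hg, -⟩
        exact absurd hg (Finset.notMem_empty g)
      · intro h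
        exact absurd h (Set.notMem_empty s)
    obtain ⟨η, hη, htA, h | h⟩ := hL.dich δ hδ ∅ hbel t ht htδ
    · exact ⟨t, ht, htδ, ∅, hbel, horb.symm, η, hη, htA, h⟩
    · exfalso
      have hsub : Sub T (A η) := by
        refine ⟨(hL.tree η).1, (hL.tree η).2, fun ε => ?_⟩
        obtain ⟨s, hs, hε, h1⟩ := hL.bdd δ hδ {η} (by simpa using hη) ⟨t, ht, htδ, by
          simpa using htA⟩ ε
        exact ⟨s, h1 η (by simp), hε⟩
      obtain ⟨D, -, hDs, hDn⟩ := h _ le_rfl hsub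
      exact not_sub_chain hT hDs (fun w hw => hDn w hw (fun g hg =>
        absurd hg (Finset.notMem_empty g)))
  · intro δ hδ t ht htδ E hE hET
    classical
    have h1 : ∀ s ∈ E, ∃ g : Finset Om, (∀ ξ ∈ g, ξ < δ) ∧ s = flip g t := by
      intro s hs
      obtain ⟨g, hg, h2⟩ := exists_flip hT (hET s hs).1 ht ((hET s hs).2.trans htδ.symm)
      exact ⟨g, htδ ▸ hg, h2⟩
    choose! G hG hG' using h1
    refine ⟨hE.toFinset.image G, ?_, ?_⟩
    · intro g hg
      obtain ⟨s, hs, rfl⟩ := Finset.mem_image.1 hg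
      exact hG s (hE.mem_toFinset.1 hs)
    · ext s
      constructor
      · intro hs
        exact ⟨G s, Finset.mem_image.2 ⟨s, hE.mem_toFinset.2 hs, rfl⟩, hG' s hs⟩
      · rintro ⟨g, hg, rfl⟩
        obtain ⟨s, hs, rfl⟩ := Finset.mem_image.1 hg
        rw [← hG' s (hE.mem_toFinset.1 hs)]
        exact hE.mem_toFinset.1 hs

end Pool.Agent.MOO.H39
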