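import Pool.Agent.Helper58_MOO.Stmts

/-!
Module LST: the list of trees deciding all the colourings `Kf K f`.
-/

open Cardinal
open Pool.Agent.Helper69_LOTS

namespace Pool.Agent.MOO.H39

open Node

theorem mts_mono {A B : Set Node} (h : A ⊆ B) {w : Node} (hw : w ∈ mts A) : w ∈ mts B := by
  obtain ⟨s, hs, t, ht, hm⟩ := hw
  exact ⟨s, h hs, t, h ht, hm⟩

theorem card_index : Nonempty (Om ≃ Finset Om × (Finset (Finset Om) × Om)) := by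
  have : Infinite Om := by
    by_contra hcon
    rw [not_infinite_iff_finite] at hcon
    exact not_countable (α := Om) inferInstance
  refine Cardinal.eq.1 ?_
  rw [Cardinal.mk_prod, Cardinal.mk_prod, Cardinal.lift_id, Cardinal.lift_id, Cardinal.lift_id,
    Cardinal.lift_id, Cardinal.mk_finset_of_infinite, Cardinal.mk_finset_of_infinite,
    Cardinal.mk_finset_of_infinite, Cardinal.mul_eq_self (Cardinal.aleph0_le_mk Om),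
    Cardinal.mul_eq_self (Cardinal.aleph0_le_mk Om)]

/-- LST. -/
theorem lst (hS : SdfStmt) : LstStmt := by
  intro hP T hT K
  classical
  have h1 : ∀ f : Finset (Finset Om), ∃ (A : Om → Set Node) (C : Set Om), Clb C ∧
      (∀ η, A η ⊆ T ∧ IsTree (A η) ∧
        (NoNull T (Kf K f) (A η) ∨ DNull T (Kf K f) (A η))) ∧
      ∀ δ ∈ C, ∀ t ∈ T, t.ht = δ → ∃ η, η < δ ∧ t ∈ A η := by
    intro f
    obtain ⟨A, C, hC, hA, hcov⟩ := hS hP T (fun B => Sub T B ∧ ∀ w ∈ mts B, w ∉ Kf K f)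
      hT.toAT (fun A h => h.1)
      (fun A hA B hB hsub => ⟨hsub, fun w hw => hA.2 w (mts_mono hB hw)⟩)
    refine ⟨A, C, hC, fun η => ⟨(hA η).1, (hA η).2.1, ?_⟩, hcov⟩
    rcases (hA η).2.2 with h | h
    · left
      intro B hB hsub
      by_contra hcon
      push Not at hcon
      exact h B hB hsub ⟨hsub, hcon⟩
    · right
      intro B hB hsub
      obtain ⟨D, hD, hDs, -, hDn⟩ := h B hB hsub
      exact ⟨D, hD, hDs, hDn⟩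
  choose Af Cf hCf hAf hcov using h1
  obtain ⟨e⟩ := card_index
  let X : Type := Om ⊕ (Finset Om ⊕ Finset (Finset Om))
  let o : Om → X := Sum.inl
  let i : Finset Om → X := fun g => Sum.inr (Sum.inl g)
  let j : Finset (Finset Om) → X := fun f => Sum.inr (Sum.inr f)
  have ho : Function.Injective o := Sum.inl_injective
  have hi : Function.Injective i := Sum.inr_injective.comp Sum.inl_injective
  have hj : Function.Injective j := Sum.inr_injective.comp Sum.inr_injective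
  have : Nonempty X := ⟨o (Classical.arbitrary Om)⟩
  let A : Om → Set Node := fun ζ => {s | flip (e ζ).1 s ∈ Af (e ζ).2.1 (e ζ).2.2}
  have hAdef : ∀ ζ s, s ∈ A ζ ↔ flip (e ζ).1 s ∈ Af (e ζ).2.1 (e ζ).2.2 := fun ζ s => Iff.rfl
  have hAT : ∀ ζ, A ζ ⊆ T := by
    intro ζ s hs
    have h2 := hT.flip _ ((hAf (e ζ).2.1 (e ζ).2.2).1 hs) (e ζ).1
    rwa [flip_flip_self] at h2
  have hAtree : ∀ ζ, IsTree (A ζ) := by
    intro ζ s hs ξ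
    rw [hAdef, flip_res]
    exact (hAf (e ζ).2.1 (e ζ).2.2).2.1 _ hs ξ
  -- closures
  have c1 : CM (fun M : Set X => ∀ l : List Om, (∀ a ∈ l, o a ∈ M) →
      (∃ g, g = l.toFinset) → ∃ g, i g ∈ M ∧ g = l.toFinset) :=
    CM.skolemTL ho (fun l g => g = l.toFinset)
  have c2 : CM (fun M : Set X => ∀ l : List (Finset Om), (∀ a ∈ l, i a ∈ M) →
      (∃ g, g = l.toFinset) → ∃ g, j g ∈ M ∧ g = l.toFinset) :=
    CM.skolemTL hi (fun l g => g = l.toFinset)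
  have c3 : CM (fun M : Set X => ∀ g f η, i g ∈ M → j f ∈ M → o η ∈ M →
      (∃ ζ, ζ = e.symm (g, f, η)) → ∃ ζ, o ζ ∈ M ∧ ζ = e.symm (g, f, η)) :=
    CM.skolem3 hi hj ho (fun g f η ζ => ζ = e.symm (g, f, η))
  have c4 : CM (fun M : Set X => ∀ ζ, o ζ ∈ M → (∃ g, g = (e ζ).1) →
      ∃ g, i g ∈ M ∧ g = (e ζ).1) := CM.skolem1 ho (fun ζ g => g = (e ζ).1)
  have c5 : CM (fun M : Set X => ∀ ζ, o ζ ∈ M → (∃ g, g = (e ζ).2.1) →
      ∃ g, j g ∈ M ∧ g = (e ζ).2.1) := CM.skolem1 ho (fun ζ g => g = (e ζ).2.1)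
  have c6 : CM (fun M : Set X => ∀ ζ, o ζ ∈ M → (∃ g, g = (e ζ).2.2) →
      ∃ g, o g ∈ M ∧ g = (e ζ).2.2) := CM.skolem1 ho (fun ζ g => g = (e ζ).2.2)
  have c7 : CM (fun M : Set X => ∀ l : List Om, (∀ a ∈ l, o a ∈ M) →
      (∃ ε, ¬ ∃ t ∈ T, t.ht = ε ∧ ∀ η ∈ l, t ∈ A η) →
      ∃ ε, o ε ∈ M ∧ ¬ ∃ t ∈ T, t.ht = ε ∧ ∀ η ∈ l, t ∈ A η) :=
    CM.skolemTL ho (fun l ε => ¬ ∃ t ∈ T, t.ht = ε ∧ ∀ η ∈ l, t ∈ A η)
  have c8 : CM (fun M : Set X => ∀ x ∈ M, ∀ f, x = j f → ∃ δ ∈ Cf f, ∀ ξ, o ξ ∈ M ↔ ξ < δ) := by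
    refine CM.diag (fun x => ?_)
    by_cases hx : ∃ f, x = j f
    · obtain ⟨f, rfl⟩ := hx
      refine ((hCf f).cmX ho).mono (fun M _ hM f' hf' => ?_)
      have := hj hf'
      subst this
      exact hM
    · exact ⟨fun _ _ => Classical.arbitrary X, fun M _ _ f hf => absurd ⟨f, hf⟩ hx⟩
  have c9 : CM (fun M : Set X => ∀ g h, i g ∈ M → i h ∈ M →
      (∃ k, k = symmDiff g h) → ∃ k, i k ∈ M ∧ k = symmDiff g h) :=
    CM.skolem2 hi hi (fun g h k => k = symmDiff g h)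
  obtain ⟨C0, hC0, hC0M⟩ := CM.clbX ho ((((((((c1.and c2).and c3).and c4).and c5).and c6).and
    c7).and c8).and c9)
  have hfin : ∀ M : Set X, (∀ l : List Om, (∀ a ∈ l, o a ∈ M) →
      (∃ g, g = l.toFinset) → ∃ g, i g ∈ M ∧ g = l.toFinset) →
      ∀ δ, (∀ ξ, o ξ ∈ M ↔ ξ < δ) → ∀ g : Finset Om, (∀ ξ ∈ g, ξ < δ) → i g ∈ M := by
    intro M hM δ hδ g hg
    obtain ⟨g', hg', h2⟩ := hM g.toList (fun a ha => (hδ a).2 (hg a (Finset.mem_toList.1 ha)))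
      ⟨_, rfl⟩
    rw [Finset.toList_toFinset] at h2
    exact h2 ▸ hg'
  refine ⟨A, C0 ∩ {δ | IsLim δ}, hC0.inter Clb.lim, fun δ hδ => hδ.2,
    fun ζ => ⟨hAT ζ, hAtree ζ⟩, ?_, ?_, ?_⟩
  · -- dich
    rintro δ ⟨hδ, -⟩ f hf t ht htδ
    obtain ⟨M, -, ⟨⟨⟨⟨⟨⟨⟨⟨m1, m2⟩, m3⟩, m4⟩, m5⟩, m6⟩, m7⟩, m8⟩, m9⟩, hM⟩ := hC0M δ hδ
    have hfM : j f ∈ M := by
      obtain ⟨f', hf', h2⟩ := m2 f.toList (fun g hg => hfin M m1 δ hM g
        (hf g (Finset.mem_toList.1 hg))) ⟨_, rfl⟩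
      rw [Finset.toList_toFinset] at h2
      exact h2 ▸ hf'
    have hδC : δ ∈ Cf f := by
      obtain ⟨δ', hδ', h2⟩ := m8 _ hfM f rfl
      have h3 : δ = δ' := by
        apply le_antisymm
        · by_contra h4
          exact lt_irrefl _ ((h2 δ').1 ((hM δ').2 (not_le.1 h4)))
        · by_contra h4
          exact lt_irrefl _ ((hM δ).1 ((h2 δ).2 (not_le.1 h4)))
      exact h3 ▸ hδ'
    obtain ⟨η, hη, htη⟩ := hcov f δ hδC t ht htδ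
    have hE : i (∅ : Finset Om) ∈ M := hfin M m1 δ hM ∅ (fun ξ hξ =>
      absurd hξ (Finset.notMem_empty ξ))
    obtain ⟨ζ, hζ, hζe⟩ := m3 ∅ f η hE hfM ((hM η).2 hη) ⟨_, rfl⟩
    have he : e ζ = (∅, f, η) := by rw [hζe, Equiv.apply_symm_apply]
    have hAz : A ζ = Af f η := by
      ext s
      rw [hAdef, he]
      simp
    refine ⟨ζ, (hM ζ).1 hζ, ?_, ?_⟩
    · rw [hAz]
      exact htη
    · rw [hAz]
      exact (hAf f η).2.2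
  · -- tran
    rintro δ ⟨hδ, -⟩ η hη g hg
    obtain ⟨M, -, ⟨⟨⟨⟨⟨⟨⟨⟨m1, m2⟩, m3⟩, m4⟩, m5⟩, m6⟩, m7⟩, m8⟩, m9⟩, hM⟩ := hC0M δ hδ
    have hgM := hfin M m1 δ hM g hg
    obtain ⟨g0, hg0, rfl⟩ := m4 η ((hM η).2 hη) ⟨_, rfl⟩
    obtain ⟨f0, hf0, rfl⟩ := m5 η ((hM η).2 hη) ⟨_, rfl⟩
    obtain ⟨η0, hη0, rfl⟩ := m6 η ((hM η).2 hη) ⟨_, rfl⟩
    obtain ⟨k, hk, rfl⟩ := m9 _ _ hg0 hgM ⟨_, rfl⟩
    obtain ⟨ζ, hζ, hζe⟩ := m3 _ _ _ hk hf0 hη0 ⟨_, rfl⟩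
    refine ⟨ζ, (hM ζ).1 hζ, fun s => ?_⟩
    rw [hAdef, hAdef, hζe, Equiv.apply_symm_apply, Node.flip_flip]
  · -- bdd
    rintro δ ⟨hδ, -⟩ l hl ⟨t, ht, htδ, htA⟩ ε
    obtain ⟨M, -, ⟨⟨⟨⟨⟨⟨⟨⟨m1, m2⟩, m3⟩, m4⟩, m5⟩, m6⟩, m7⟩, m8⟩, m9⟩, hM⟩ := hC0M δ hδ
    by_contra hcon
    obtain ⟨ε', hε', h2⟩ := m7 l.toList (fun a ha => (hM a).2 (hl a (Finset.mem_toList.1 ha)))
      ⟨ε, fun ⟨s, hs, hsε, hsA⟩ => hcon ⟨s, hs, hsε, fun η hη => hsA η (Finset.mem_toList.2 hη)⟩⟩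
    apply h2
    refine ⟨t.res ε', hT.down t ht ε', res_ht_of_le (by
      rw [htδ]; exact ((hM ε').1 hε').le), fun η hη => hAtree η t (htA η
        (Finset.mem_toList.1 hη)) ε'⟩

end Pool.Agent.MOO.H39
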